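import Pool.Agent.Helper7.KT.St

/-! Project KT: module POC. -/

set_option autoImplicit false

namespace Pool.Agent.Helper64.KT

open Finset SimpleGraph Filter Topology
open EX Pool.Agent.Helper7.KT

open scoped Classical

theorem tri_card {n : ℕ} (H : Finset (Finset (Fin n))) (h3 : ∀ E ∈ H, E.card = 3) :
    ∑ x : Fin n, ∑ g : Fin n, cd H x g ≤ 27 * H.card := by
  have h1 : ∑ x : Fin n, ∑ g : Fin n, cd H x g =
      (univ.filter fun p : Fin n × Fin n × Fin n => T3 H p.1 p.2.1 p.2.2).card := by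
    rw [card_filter, Fintype.sum_prod_type]
    refine sum_congr rfl fun x _ => ?_
    rw [Fintype.sum_prod_type]
    refine sum_congr rfl fun g _ => ?_
    unfold cd
    rw [card_filter]
  rw [h1]
  refine card_le_mul_card_image_of_maps_to
    (f := fun p : Fin n × Fin n × Fin n => ({p.1, p.2.1, p.2.2} : Finset (Fin n))) ?_ 27 ?_
  · intro p hp
    have h9 := (mem_filter.1 hp).2.2.2.2
    have e : ∀ S1 S2 : Finset (Fin n), S1 = S2 → S2 ∈ H → S1 ∈ H := fun _ _ h h' => h ▸ h'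
    refine e _ _ ?_ h9
    ext y
    simp only [mem_insert, mem_singleton]
  · intro E hE
    have h4 : ((univ.filter fun p : Fin n × Fin n × Fin n => T3 H p.1 p.2.1 p.2.2).filter
        fun p => ({p.1, p.2.1, p.2.2} : Finset (Fin n)) = E) ⊆ E ×ˢ E ×ˢ E := by
      intro p hp
      have h5 := (mem_filter.1 hp).2
      subst h5
      simp
    refine (card_le_card h4).trans ?_
    rw [card_product, card_product, h3 E hE]

theorem lower {n : ℕ} (H : Finset (Finset (Fin n))) (δ : ℝ) (D : ℕ) (hδ : 0 < δ) :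
    (((univ.filter fun x => D < hd δ H x).card : ℕ) : ℝ) * (D * (δ * n)) ≤
      ((∑ x : Fin n, ∑ g : Fin n, cd H x g : ℕ) : ℝ) := by
  push_cast
  have h0 : 0 ≤ δ * n := by positivity
  have h1 : ∀ x ∈ univ.filter (fun x => D < hd δ H x), (D * (δ * n) : ℝ) ≤
      ∑ g : Fin n, (cd H x g : ℝ) := by
    intro x hx
    have h2 : D < hd δ H x := (mem_filter.1 hx).2
    have h3 : ((hd δ H x : ℕ) : ℝ) * (δ * n) ≤
        ∑ g ∈ univ.filter (fun w => hv δ H x w), (cd H x g : ℝ) := by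
      unfold hd
      rw [← nsmul_eq_mul]
      refine card_nsmul_le_sum _ _ _ fun g hg => ?_
      exact (mem_filter.1 hg).2.2
    have h4 : ∑ g ∈ univ.filter (fun w => hv δ H x w), (cd H x g : ℝ) ≤
        ∑ g : Fin n, (cd H x g : ℝ) :=
      sum_le_sum_of_subset_of_nonneg (filter_subset _ _) fun _ _ _ => Nat.cast_nonneg _
    have h5 : (D : ℝ) ≤ ((hd δ H x : ℕ) : ℝ) := by exact_mod_cast h2.le
    calc (D * (δ * n) : ℝ) ≤ ((hd δ H x : ℕ) : ℝ) * (δ * n) :=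
          mul_le_mul_of_nonneg_right h5 h0
      _ ≤ _ := h3.trans h4
  calc (((univ.filter fun x => D < hd δ H x).card : ℕ) : ℝ) * (D * (δ * n))
      ≤ ∑ x ∈ univ.filter (fun x => D < hd δ H x), ∑ g : Fin n, (cd H x g : ℝ) := by
        rw [← nsmul_eq_mul]
        exact card_nsmul_le_sum _ _ _ h1
    _ ≤ ∑ x : Fin n, ∑ g : Fin n, (cd H x g : ℝ) :=
        sum_le_sum_of_subset_of_nonneg (filter_subset _ _) fun _ _ _ =>
          sum_nonneg fun _ _ => Nat.cast_nonneg _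

theorem upper (hCDR : StCDR) {n : ℕ} {U : Type} [Fintype U] (G : SimpleGraph U)
    (H : Finset (Finset (Fin n))) (h3 : ∀ E ∈ H, E.card = 3) (L : Finset (Fin n)) :
    (H.filter fun E => ∃ x y z, T3 H x y z ∧ E = {x, y, z} ∧ ¬ (Γr 2 G H).Adj x y ∧
        x ∈ L).card ≤ L.card * n * sN 2 G := by
  have h1 : (H.filter fun E => ∃ x y z, T3 H x y z ∧ E = {x, y, z} ∧ ¬ (Γr 2 G H).Adj x y ∧
        x ∈ L) ⊆ (L ×ˢ (univ : Finset (Fin n))).biUnion fun p =>
          if p.1 ≠ p.2 ∧ ¬ (Γr 2 G H).Adj p.1 p.2 then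
            (univ.filter fun z => T3 H p.1 p.2 z).image fun z => ({p.1, p.2, z} : Finset (Fin n))
          else ∅ := by
    intro E hE
    obtain ⟨-, x, y, z, h4, h5, h6, h7⟩ := mem_filter.1 hE
    refine mem_biUnion.2 ⟨(x, y), mem_product.2 ⟨h7, mem_univ _⟩, ?_⟩
    rw [if_pos ⟨h4.1, h6⟩]
    exact mem_image.2 ⟨z, mem_filter.2 ⟨mem_univ _, h4⟩, h5.symm⟩
  refine (card_le_card h1).trans ?_
  have h2 : (L ×ˢ (univ : Finset (Fin n))).card = L.card * n := by
    rw [card_product, card_univ, Fintype.card_fin]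
  rw [← h2]
  refine card_biUnion_le_card_mul _ _ _ fun p _ => ?_
  split_ifs with h4
  · refine card_image_le.trans ?_
    by_contra h5
    have h6 : sN 2 G ≤ cd H p.1 p.2 := by
      unfold cd
      exact (not_le.1 h5).le
    exact h4.2 ⟨h4.1, (hCDR (Fin n) H h3 (sN 2 G) p.1 p.2 h4.1).2 h6⟩
  · simp

theorem hPOC (hHBD : StHBD) (hCDR : StCDR) : StPOC := by
  intro U _ G t hB ht δ hδ ε hε
  obtain ⟨C₀, hC, hev⟩ := hHBD U G t hB ht
  obtain ⟨D, hD⟩ := exists_nat_gt (27 * C₀ * (sN 2 G : ℝ) / (δ * ε))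
  have hD0 : (0 : ℝ) < D := lt_of_le_of_lt (by positivity) hD
  refine ⟨D, ?_⟩
  filter_upwards [hev, eventually_ge_atTop 1] with n hn hn1 H hF
  have h3 : ∀ E ∈ H, E.card = 3 := hF.1
  have hn0 : (0 : ℝ) < n := by exact_mod_cast hn1
  have e1 := upper hCDR G H h3 (univ.filter fun x => D < hd δ H x)
  have e2 : ((H.filter fun E => ∃ x y z, T3 H x y z ∧ E = {x, y, z} ∧
      ¬ (Γr 2 G H).Adj x y ∧ D < hd δ H x).card : ℝ) ≤
      ((univ.filter fun x => D < hd δ H x).card : ℝ) * n * (sN 2 G : ℝ) := by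
    have : (H.filter fun E => ∃ x y z, T3 H x y z ∧ E = {x, y, z} ∧
      ¬ (Γr 2 G H).Adj x y ∧ D < hd δ H x) = (H.filter fun E => ∃ x y z, T3 H x y z ∧
      E = {x, y, z} ∧ ¬ (Γr 2 G H).Adj x y ∧ x ∈ univ.filter fun x => D < hd δ H x) := by
      simp only [mem_filter, mem_univ, true_and]
    rw [this]
    exact_mod_cast e1
  have e3 := lower H δ D hδ
  have e4 : ((∑ x : Fin n, ∑ g : Fin n, cd H x g : ℕ) : ℝ) ≤ 27 * (C₀ * (n : ℝ) ^ 2) := by
    have h5 : ((∑ x : Fin n, ∑ g : Fin n, cd H x g : ℕ) : ℝ) ≤ 27 * (H.card : ℝ) := by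
      exact_mod_cast tri_card H h3
    have h6 := hn H hF
    linarith
  set l : ℝ := ((univ.filter fun x => D < hd δ H x).card : ℝ) with hl
  have hl0 : 0 ≤ l := Nat.cast_nonneg _
  have e5 : l * (D * (δ * n)) ≤ 27 * (C₀ * (n : ℝ) ^ 2) := e3.trans e4
  have e6 : 27 * C₀ * (sN 2 G : ℝ) ≤ D * (δ * ε) := by
    rw [div_lt_iff₀ (by positivity)] at hD
    exact hD.le
  have hN0 : (0 : ℝ) ≤ (sN 2 G : ℝ) := Nat.cast_nonneg _
  refine e2.trans ?_
  have e7 : (l * n * (sN 2 G : ℝ)) * (D * δ) ≤ (ε * (n : ℝ) ^ 2) * (D * δ) := by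
    calc (l * n * (sN 2 G : ℝ)) * (D * δ) = (l * (D * (δ * n))) * (sN 2 G : ℝ) := by ring
      _ ≤ (27 * (C₀ * (n : ℝ) ^ 2)) * (sN 2 G : ℝ) := mul_le_mul_of_nonneg_right e5 hN0
      _ = (27 * C₀ * (sN 2 G : ℝ)) * (n : ℝ) ^ 2 := by ring
      _ ≤ (D * (δ * ε)) * (n : ℝ) ^ 2 := mul_le_mul_of_nonneg_right e6 (by positivity)
      _ = _ := by ring
  exact le_of_mul_le_mul_right e7 (by positivity)

end Pool.Agent.Helper64.KT
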